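import Mathlib
import Pool.Agent.Lib.MP_ab521b_an.Defs
import Pool.Agent.Lib.MP_ab521b_an.Nonempty

/-! The largest `P_H`-null subspaces have complex dimension `n - 1` and real dimension `2n - 1`. -/

namespace Pool.Agent.Results.MP_ab521b_an.Full

open Pool.Agent.Lib.MP_ab521b_an

theorem result (n : ℕ) (hn : 2 ≤ n) :
    IsGreatest (complexNullDims n) (n - 1) ∧ IsGreatest (realNullDims n) (2 * n - 1) := by
  have hC : Module.finrank ℂ (Cn n) = n := by simp
  have hR : Module.finrank ℝ (Cn n) = 2 * n := by
    rw [← Module.finrank_mul_finrank ℝ ℂ (Cn n), Complex.finrank_real_complex, hC]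
  have htop : ¬ IsPHNull (Set.univ : Set (Cn n)) := by
    intro h
    have h1 := h _ (sigma_mem_PH (by omega))
    have := sigma_prob (n := n) (by omega)
    simp at h1
  refine ⟨⟨?_, ?_⟩, ⟨?_, ?_⟩⟩
  · obtain ⟨f, hf⟩ := exists_linearIndependent_of_le_finrank (R := ℂ) (M := Cn n) (n := n - 1)
      (by omega)
    have h1 : Module.finrank ℂ (Submodule.span ℂ (Set.range f)) = n - 1 := by
      rw [finrank_span_eq_card hf, Fintype.card_fin]
    refine ⟨_, h1, fun μ hμ => ?_⟩
    refine real_subspace_null hn hμ.1 ((Submodule.span ℂ (Set.range f)).restrictScalars ℝ) ?_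
    intro h
    rw [Submodule.restrictScalars_eq_top_iff] at h
    rw [h, finrank_top, hC] at h1
    omega
  · rintro d ⟨V, rfl, hV⟩
    by_contra hlt
    have h1 : V = ⊤ := Submodule.eq_top_of_finrank_eq
      (le_antisymm (Submodule.finrank_le V) (by omega))
    rw [h1] at hV
    exact htop hV
  · obtain ⟨f, hf⟩ := exists_linearIndependent_of_le_finrank (R := ℝ) (M := Cn n) (n := 2 * n - 1)
      (by omega)
    have h1 : Module.finrank ℝ (Submodule.span ℝ (Set.range f)) = 2 * n - 1 := by
      rw [finrank_span_eq_card hf, Fintype.card_fin]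
    refine ⟨_, h1, fun μ hμ => ?_⟩
    refine real_subspace_null hn hμ.1 _ ?_
    intro h
    rw [h, finrank_top, hR] at h1
    omega
  · rintro d ⟨V, rfl, hV⟩
    by_contra hlt
    have h1 : V = ⊤ := Submodule.eq_top_of_finrank_eq
      (le_antisymm (Submodule.finrank_le V) (by omega))
    rw [h1] at hV
    exact htop hV

end Pool.Agent.Results.MP_ab521b_an.Full
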